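import Pool.Agent.KS6_41.Dir.Tripod

/-!
The least number of directions determined by a nonplanar set of `p` points of `F_p^3`, the sets that
attain it, and a linear gap after it.
-/

set_option autoImplicit false

namespace Pool.Agent.Results.MP_853269_co.LinearGap

/-- the set `A` lies in an affine plane -/
def InPlane {p : ℕ} (A : Finset (Fin 3 → ZMod p)) : Prop :=
  ∃ v : Fin 3 → ZMod p, v ≠ 0 ∧ ∃ c : ZMod p, ∀ a ∈ A, ∑ i, v i * a i = c

/-- the number of directions determined by `A` -/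
noncomputable def numDirs {p : ℕ} (A : Finset (Fin 3 → ZMod p)) : ℕ :=
  Set.ncard {W : Submodule (ZMod p) (Fin 3 → ZMod p) |
    ∃ a ∈ A, ∃ b ∈ A, a ≠ b ∧ W = Submodule.span (ZMod p) {a - b}}

/-- `p ≡ 1 (mod 3)`, and `A` consists of a point `c` and of the points `c + x v_i` (`i = 0, 1, 2`),
where `v` is a basis and `x` runs over the subgroup of index three of the multiplicative group -/
def IsTripod {p : ℕ} (A : Finset (Fin 3 → ZMod p)) : Prop :=
  p % 3 = 1 ∧ ∃ (c : Fin 3 → ZMod p) (v : Fin 3 → Fin 3 → ZMod p), LinearIndependent (ZMod p) v ∧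
    ∀ a, a ∈ A ↔ a = c ∨ ∃ i : Fin 3, ∃ x : ZMod p, x ^ ((p - 1) / 3) = 1 ∧ a = c + x • v i

/-- A nonplanar set of `p` points of `F_p^3` determines at least `p + 2` directions; the value
`p + 2` is attained exactly for `p ≡ 1 (mod 3)`; tripods determine `p + 2` directions, and all other
nonplanar `p`-sets determine more than `p + 1 + p / 24` directions. -/
theorem result (p : ℕ) (hp : p.Prime) :
    (∀ A : Finset (Fin 3 → ZMod p), A.card = p → ¬ InPlane A → p + 2 ≤ numDirs A) ∧
    ((∃ A : Finset (Fin 3 → ZMod p), A.card = p ∧ ¬ InPlane A ∧ numDirs A = p + 2) ↔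
      p % 3 = 1) ∧
    (∀ A : Finset (Fin 3 → ZMod p), A.card = p → ¬ InPlane A → IsTripod A → numDirs A = p + 2) ∧
    (∀ A : Finset (Fin 3 → ZMod p), A.card = p → ¬ InPlane A → ¬ IsTripod A →
      p < 24 * (numDirs A - (p + 1))) := by
  have : Fact p.Prime := ⟨hp⟩
  have hnp : ∀ A : Finset (Fin 3 → ZMod p), ¬ InPlane A → KS41.Dir.NonPlanar A := by
    intro A h v hv hc
    obtain ⟨c, hc⟩ := hc
    exact h ⟨v, hv, c, hc⟩
  refine ⟨fun A hA h => (KS41.Dir.lower_bound hA (hnp A h)).1, ⟨?_, ?_⟩, ?_, ?_⟩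
  · rintro ⟨A, hA, h, hn⟩
    by_contra h1
    have h2 : p + 3 ≤ numDirs A := (KS41.Dir.lower_bound hA (hnp A h)).2 h1
    omega
  · intro h1
    obtain ⟨H, h0, h1', hdiv, hcard⟩ := KS41.Dir.exists_cubes (p := p) h1
    have hnpl : ¬ InPlane (KS41.Dir.cevaSet H) := KS41.Dir.ceva_nonplanar h1'
    have hAc : (KS41.Dir.cevaSet H).card = p := by rw [KS41.Dir.card_cevaSet h0, hcard]
    refine ⟨KS41.Dir.cevaSet H, hAc, hnpl, ?_⟩
    have h2 : p + 2 ≤ numDirs (KS41.Dir.cevaSet H) := (KS41.Dir.lower_bound hAc (hnp _ hnpl)).1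
    have h3 : numDirs (KS41.Dir.cevaSet H) ≤ 3 + 3 * H.card := KS41.Dir.ceva_dirs_le h0 hdiv
    omega
  · rintro A hA h ⟨h3, c, v, _, hall⟩
    have h1 : p + 2 ≤ numDirs A := (KS41.Dir.lower_bound hA (hnp A h)).1
    have h2 : numDirs A ≤ p + 2 := KS41.Dir.tripod_upper h3 A c v hall
    omega
  · intro A hA h hT
    by_contra hcon
    push Not at hcon
    apply hT
    have h1 : p + 2 ≤ numDirs A := (KS41.Dir.lower_bound hA (hnp A h)).1
    obtain ⟨D, hDc, hD, hD0⟩ := KS41.Dir.exists_D A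
    have hDc' : D.card ≤ numDirs A := hDc
    obtain ⟨_, l, hl, hpl⟩ := KS41.Dir.prime_ge_five hA (hnp A h)
    have hlt : 24 * (numDirs A - (p + 1)) < p := by
      refine lt_of_le_of_ne hcon ?_
      intro he
      rw [← he] at hp
      exact Nat.not_prime_mul (by norm_num) (by omega) hp
    have h29 : 29 ≤ p := by
      by_contra h28
      have : p = 25 ∨ p = 26 ∨ p = 27 ∨ p = 28 := by omega
      rcases this with rfl | rfl | rfl | rfl <;> revert hp <;> decide
    exact KS41.Dir.structure_thm hD hA (hnp A h) (numDirs A - (p + 1)) (by omega) hlt h29 (by omega)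
      hD0 l hl hpl

end Pool.Agent.Results.MP_853269_co.LinearGap
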